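import Pool.Graph.R_pool_sql_team_ae5b0c61.Results.MP_1ce666_co.Count

/-!
Joint distribution of the number of cycles of `π̂` and of the size of the cycle containing `n` on the
permutations avoiding `321` and the arrow pattern `(12; 1 → 3)`.
-/

set_option autoImplicit false

namespace Pool.Agent.KS6_13.AR

open List Pool.Agent.Results.MP_1ce666_co.Count

/-- the permutation with standard cycle word `w` has exactly `l` cycles -/
def Cyc (w : List ℕ) (l : ℕ) : Prop := ∃ L, Std L ∧ L.flatten = w ∧ L.length = l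

/-- the permutation with standard cycle word `w` has exactly `l` cycles, and its last cycle (the one
with the largest entry) has `c` elements -/
def CycLast (w : List ℕ) (l c : ℕ) : Prop :=
  ∃ L C, Std (L ++ [C]) ∧ (L ++ [C]).flatten = w ∧ (L ++ [C]).length = l ∧ C.length = c

theorem std_left {L : List (List ℕ)} {C : List ℕ} (h : Std (L ++ [C])) : Std L := by
  obtain ⟨h1, h2⟩ := h
  refine ⟨fun c hc => h1 c (by simp [hc]), ?_⟩
  rw [List.map_append, List.pairwise_append] at h2
  exact h2.1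

theorem headI_mem {C : List ℕ} (h : C ≠ []) : C.headI ∈ C := by
  cases C with
  | nil => exact absurd rfl h
  | cons a t => simp

/-- the last cycle begins with the largest entry -/
theorem last_cycle {L : List (List ℕ)} {C u v : List ℕ} {N : ℕ} (hu : ∀ x ∈ u, x < N)
    (hv : ∀ x ∈ v, x < N) (h : Std (L ++ [C])) (e : (L ++ [C]).flatten = u ++ N :: v) :
    L.flatten = u ∧ C = N :: v := by
  obtain ⟨h1, h2⟩ := h
  have hle : ∀ x ∈ (L ++ [C]).flatten, x ≤ N := by
    intro x hx
    rw [e] at hx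
    rcases List.mem_append.1 hx with hx | hx
    · exact (hu x hx).le
    · rcases List.mem_cons.1 hx with rfl | hx
      · exact le_rfl
      · exact (hv x hx).le
  have hheads : ∀ D ∈ L ++ [C], D.headI ≤ N := fun D hD =>
    hle _ (List.mem_flatten.2 ⟨D, hD, headI_mem (h1 D hD).1⟩)
  have hN : N ∈ (L ++ [C]).flatten := by rw [e]; simp
  obtain ⟨D, hD, hND⟩ := List.mem_flatten.1 hN
  have hDN : D.headI = N := le_antisymm (hheads D hD) ((h1 D hD).2 N hND)
  rw [List.map_append, List.pairwise_append] at h2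
  have hDC : D = C := by
    rcases List.mem_append.1 hD with hD' | hD'
    · exfalso
      have := h2.2.2 D.headI (List.mem_map_of_mem hD') C.headI (by simp)
      have := hheads C (by simp)
      omega
    · simpa using hD'
  subst hDC
  cases D with
  | nil => simp at hND
  | cons a t =>
    simp only [List.headI_cons] at hDN
    subst hDN
    have e' : L.flatten ++ a :: t = u ++ a :: v := by simpa using e
    have ha1 : a ∉ L.flatten := by
      intro ha
      obtain ⟨D', hD', haD'⟩ := List.mem_flatten.1 ha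
      have h3 := h2.2.2 D'.headI (List.mem_map_of_mem hD') a (by simp)
      have h4 := (h1 D' (by simp [hD'])).2 a haD'
      omega
    have ha2 : a ∉ u := fun ha => lt_irrefl _ (hu a ha)
    have ha3 : a ∉ v := fun ha => lt_irrefl _ (hv a ha)
    obtain ⟨e1, -, e2⟩ := (List.append_cons_inj_of_notMem ha2 ha3).1 e'.symm
    exact ⟨e1.symm, by rw [e2]⟩

theorem std_snoc {L : List (List ℕ)} {u v : List ℕ} {N : ℕ} (hu : ∀ x ∈ u, x < N)
    (hv : ∀ x ∈ v, x < N) (h : Std L) (e : L.flatten = u) : Std (L ++ [N :: v]) := by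
  obtain ⟨h1, h2⟩ := h
  refine ⟨?_, ?_⟩
  · intro c hc
    rcases List.mem_append.1 hc with hc | hc
    · exact h1 c hc
    · simp only [List.mem_singleton] at hc
      subst hc
      refine ⟨by simp, ?_⟩
      intro z hz
      rcases List.mem_cons.1 hz with rfl | hz
      · simp
      · exact (hv z hz).le
  · rw [List.map_append, List.pairwise_append]
    refine ⟨h2, by simp, ?_⟩
    intro a ha b hb
    simp only [List.map_cons, List.headI_cons, List.map_nil, List.mem_singleton] at hb
    subst hb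
    obtain ⟨D, hD, rfl⟩ := List.mem_map.1 ha
    exact hu _ (by rw [← e]; exact List.mem_flatten.2 ⟨D, hD, headI_mem (h1 D hD).1⟩)

theorem cycLast_iff {u v : List ℕ} {N k j : ℕ} (hu : ∀ x ∈ u, x < N) (hv : ∀ x ∈ v, x < N) :
    CycLast (u ++ N :: v) (k + 1) (j + 1) ↔ Cyc u k ∧ v.length = j := by
  constructor
  · rintro ⟨L, C, h1, h2, h3, h4⟩
    obtain ⟨e1, e2⟩ := last_cycle hu hv h1 h2
    refine ⟨⟨L, std_left h1, e1, by simpa using h3⟩, ?_⟩
    rw [e2] at h4
    simpa using h4
  · rintro ⟨⟨L, h1, h2, h3⟩, h4⟩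
    exact ⟨L, N :: v, std_snoc hu hv h1 h2, by simp [h2], by simp [h3], by simp [h4]⟩

theorem cyc_iff {u v : List ℕ} {N k : ℕ} (hu : ∀ x ∈ u, x < N) (hv : ∀ x ∈ v, x < N) :
    Cyc (u ++ N :: v) (k + 1) ↔ Cyc u k := by
  constructor
  · rintro ⟨L, h1, h2, h3⟩
    rcases List.eq_nil_or_concat' L with rfl | ⟨L', C, rfl⟩
    · simp at h3
    · obtain ⟨e1, -⟩ := last_cycle hu hv h1 h2
      exact ⟨L', std_left h1, e1, by simpa using h3⟩
  · rintro ⟨L, h1, h2, h3⟩
    exact ⟨L ++ [N :: v], std_snoc hu hv h1 h2, by simp [h2], by simp [h3]⟩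

theorem cyc_zero {w : List ℕ} : Cyc w 0 ↔ w = [] := by
  constructor
  · rintro ⟨L, -, h2, h3⟩
    have : L = [] := List.length_eq_zero_iff.1 h3
    subst this; simpa using h2.symm
  · rintro rfl
    exact ⟨[], ⟨by simp, by simp⟩, rfl, rfl⟩

theorem cyc_nil {k : ℕ} : Cyc [] k ↔ k = 0 := by
  constructor
  · rintro ⟨L, h1, h2, h3⟩
    rcases List.eq_nil_or_concat' L with rfl | ⟨L', C, rfl⟩
    · simpa using h3.symm
    · exfalso
      have hC := (h1.1 C (by simp)).1
      have : C = [] := by
        have h4 : (L' ++ [C]).flatten = [] := h2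
        simp at h4
        exact h4.2
      exact hC this
  · rintro rfl
    exact cyc_zero.2 rfl

/-- the number of the pairs in `X n` with `k` cycles in the first component and the length of the
second one in `Q` -/
def XS (n k : ℕ) (Q : ℕ → Prop) : Set (List ℕ × List ℕ) := {x | x ∈ X n ∧ Cyc x.1 k ∧ Q x.2.length}
def HS (n k : ℕ) (Q : ℕ → Prop) : Set (List ℕ × List ℕ) := {x | x ∈ H n ∧ Cyc x.1 k ∧ Q x.2.length}

theorem XS_fin (n k : ℕ) (Q : ℕ → Prop) : (XS n k Q).Finite := (X_fin n).subset fun _ h => h.1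
theorem HS_fin (n k : ℕ) (Q : ℕ → Prop) : (HS n k Q).Finite := (H_fin n).subset fun _ h => h.1

theorem memH_succ {n : ℕ} {x : List ℕ × List ℕ} :
    x ∈ H (n + 1) ↔ (∃ y ∈ X n, (y.1, y.2 ++ [n + 1]) = x) ∨ ∃ y ∈ H n, (y.1 ++ [n + 1], y.2) = x := by
  obtain ⟨u, v⟩ := x
  constructor
  · rintro ⟨h, hv⟩
    have h4 := lt_of_perm h.1
    have hnd : (u ++ v).Nodup := h.1.nodup_iff.2 (List.nodup_range' _)
    have : n + 1 ∈ u ++ v := h.1.symm.subset (by simp [List.mem_range'_1])
    rcases List.mem_append.1 this with hm | hm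
    · obtain ⟨u1, u2, rfl⟩ := List.append_of_mem hm
      rcases u2 with _ | ⟨a, u2⟩
      · exact Or.inr ⟨(u1, v), ⟨caseB.1 h, hv⟩, rfl⟩
      · exfalso
        obtain ⟨b, hb⟩ := List.exists_mem_of_ne_nil v hv
        have s1 : [n + 1, a] <+ u1 ++ (n + 1) :: a :: u2 :=
          List.Sublist.trans (by simp) (List.sublist_append_right _ _)
        have s2 : [n + 1, a, b] <+ (u1 ++ (n + 1) :: a :: u2) ++ v :=
          s1.append (List.singleton_sublist.2 hb)
        have h5 := s2.nodup hnd
        have h6 := h4 a (s2.subset (by simp))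
        have h7 := h4 b (s2.subset (by simp))
        simp at h5
        rcases Nat.lt_or_ge a b with hab | hab
        · exact h.2.2.2 a b (n + 1) hab (by omega) s1 hb
        · exact h.2.1.1 ⟨b, a, n + 1, by omega, by omega, s2⟩
    · obtain ⟨v1, v2, rfl⟩ := List.append_of_mem hm
      rcases v2 with _ | ⟨a, v2⟩
      · exact Or.inl ⟨(u, v1), caseA.1 h, rfl⟩
      · exfalso
        have s1 : [n + 1, a] <+ v1 ++ (n + 1) :: a :: v2 :=
          List.Sublist.trans (by simp) (List.sublist_append_right _ _)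
        have s2 : [n + 1, a] <+ u ++ (v1 ++ (n + 1) :: a :: v2) :=
          s1.trans (List.sublist_append_right _ _)
        have h5 := s2.nodup hnd
        have h6 := h4 a (s2.subset (by simp))
        simp at h5
        exact h.2.2.1 a (n + 1) (by omega) s1
  · rintro (⟨⟨u', v'⟩, hw, e⟩ | ⟨⟨u', v'⟩, hw, e⟩)
    · obtain ⟨rfl, rfl⟩ := Prod.mk.inj e
      exact ⟨caseA.2 hw, by simp⟩
    · obtain ⟨rfl, rfl⟩ := Prod.mk.inj e
      exact ⟨caseB.2 hw.1, hw.2⟩

theorem HS_zero (n : ℕ) (Q : ℕ → Prop) :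
    (HS (n + 1) 0 Q).ncard = (XS n 0 (fun j => Q (j + 1))).ncard := by
  have e : HS (n + 1) 0 Q = (fun x : List ℕ × List ℕ => (x.1, x.2 ++ [n + 1])) ''
      XS n 0 (fun j => Q (j + 1)) := by
    ext x
    constructor
    · rintro ⟨h1, h2, h3⟩
      rcases memH_succ.1 h1 with ⟨y, hy, rfl⟩ | ⟨y, hy, rfl⟩
      · exact ⟨y, ⟨hy, h2, by simpa using h3⟩, rfl⟩
      · exfalso
        have := cyc_zero.1 h2
        simp at this
    · rintro ⟨y, ⟨h1, h2, h3⟩, rfl⟩
      exact ⟨memH_succ.2 (Or.inl ⟨y, h1, rfl⟩), h2, by simpa using h3⟩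
  rw [e, Set.ncard_image_of_injective]
  rintro ⟨a, b⟩ ⟨c, d⟩ h
  simpa using h

theorem HS_succ (n k : ℕ) (Q : ℕ → Prop) :
    (HS (n + 1) (k + 1) Q).ncard = (XS n (k + 1) (fun j => Q (j + 1))).ncard + (HS n k Q).ncard := by
  have e : HS (n + 1) (k + 1) Q = (fun x : List ℕ × List ℕ => (x.1, x.2 ++ [n + 1])) ''
      XS n (k + 1) (fun j => Q (j + 1)) ∪
      (fun x : List ℕ × List ℕ => (x.1 ++ [n + 1], x.2)) '' HS n k Q := by
    ext x
    constructor
    · rintro ⟨h1, h2, h3⟩
      rcases memH_succ.1 h1 with ⟨y, hy, rfl⟩ | ⟨y, hy, rfl⟩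
      · exact Or.inl ⟨y, ⟨hy, h2, by simpa using h3⟩, rfl⟩
      · have h4 := lt_of_perm hy.1.1
        exact Or.inr ⟨y, ⟨hy, (cyc_iff (fun x hx => h4 x (by simp [hx])) (by simp)).1 h2, h3⟩, rfl⟩
    · rintro (⟨y, ⟨h1, h2, h3⟩, rfl⟩ | ⟨y, ⟨h1, h2, h3⟩, rfl⟩)
      · exact ⟨memH_succ.2 (Or.inl ⟨y, h1, rfl⟩), h2, by simpa using h3⟩
      · have h4 := lt_of_perm h1.1.1
        exact ⟨memH_succ.2 (Or.inr ⟨y, h1, rfl⟩),
          (cyc_iff (fun x hx => h4 x (by simp [hx])) (by simp)).2 h2, h3⟩
  rw [e, Set.ncard_union_eq _ ((XS_fin _ _ _).image _) ((HS_fin _ _ _).image _),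
    Set.ncard_image_of_injective, Set.ncard_image_of_injective]
  · rintro ⟨a, b⟩ ⟨c, d⟩ h
    simpa using h
  · rintro ⟨a, b⟩ ⟨c, d⟩ h
    simpa using h
  · rw [Set.disjoint_left]
    rintro _ ⟨⟨u, v⟩, h, rfl⟩ ⟨⟨u', v'⟩, -, e⟩
    obtain ⟨e1, -⟩ := Prod.mk.inj e
    have := lt_of_perm h.1.1 (n + 1) (List.mem_append_left _ (by rw [← e1]; simp))
    omega

/-- the good words with `k` cycles -/
def GS (n k : ℕ) : Set (List ℕ) := {w | w ∈ G n ∧ Cyc w k}

theorem GS_fin (n k : ℕ) : (GS n k).Finite := (G_fin n).subset fun _ h => h.1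

theorem GS_succ (n k : ℕ) : (GS (n + 1) (k + 1)).ncard = (XS n k (fun _ => True)).ncard := by
  have e : GS (n + 1) (k + 1) = (fun x : List ℕ × List ℕ => x.1 ++ (n + 1) :: x.2) ''
      XS n k (fun _ => True) := by
    ext w
    constructor
    · rintro ⟨h1, h2⟩
      rw [G_succ] at h1
      obtain ⟨y, hy, rfl⟩ := h1
      have h4 := lt_of_perm hy.1
      exact ⟨y, ⟨hy, (cyc_iff (fun x hx => h4 x (by simp [hx]))
        (fun x hx => h4 x (by simp [hx]))).1 h2, trivial⟩, rfl⟩
    · rintro ⟨y, ⟨hy, h2, -⟩, rfl⟩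
      have h4 := lt_of_perm hy.1
      refine ⟨?_, (cyc_iff (fun x hx => h4 x (by simp [hx]))
        (fun x hx => h4 x (by simp [hx]))).2 h2⟩
      rw [G_succ]
      exact ⟨y, hy, rfl⟩
  rw [e, Set.ncard_image_of_injOn ((G_inj n).mono fun _ h => h.1)]

theorem GS_zero (n : ℕ) : GS (n + 1) 0 = ∅ := by
  ext w
  simp only [Set.mem_empty_iff_false, iff_false]
  rintro ⟨h1, h2⟩
  have h3 := cyc_zero.1 h2
  subst h3
  have := h1.1.length_eq
  simp at this

theorem XS_split_pos (n k : ℕ) (Q : ℕ → Prop) (h0 : Q 0) :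
    (XS n k Q).ncard = (GS n k).ncard + (HS n k Q).ncard := by
  have e : XS n k Q = (fun w => (w, ([] : List ℕ))) '' GS n k ∪ HS n k Q := by
    ext ⟨u, v⟩
    constructor
    · rintro ⟨h1, h2, h3⟩
      by_cases hv : v = []
      · subst hv
        exact Or.inl ⟨u, ⟨⟨by simpa using h1.1, by simpa using h1.2.1⟩, h2⟩, rfl⟩
      · exact Or.inr ⟨⟨h1, hv⟩, h2, h3⟩
    · rintro (⟨w, hw, e⟩ | h)
      · obtain ⟨rfl, rfl⟩ := Prod.mk.inj e
        exact ⟨⟨by simpa using hw.1.1, by simpa using hw.1.2, P_nil _⟩, hw.2, by simpa using h0⟩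
      · exact ⟨h.1.1, h.2.1, h.2.2⟩
  rw [e, Set.ncard_union_eq _ ((GS_fin n k).image _) (HS_fin n k Q),
    Set.ncard_image_of_injective _ (fun a b h => (Prod.mk.inj h).1)]
  rw [Set.disjoint_left]
  rintro _ ⟨w, -, rfl⟩ h
  exact h.1.2 rfl

theorem XS_split_neg (n k : ℕ) (Q : ℕ → Prop) (h0 : ¬ Q 0) : XS n k Q = HS n k Q := by
  ext ⟨u, v⟩
  constructor
  · rintro ⟨h1, h2, h3⟩
    refine ⟨⟨h1, ?_⟩, h2, h3⟩
    rintro hv
    simp only at hv
    subst hv
    exact h0 (by simpa using h3)
  · rintro ⟨h1, h2, h3⟩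
    exact ⟨h1.1, h2, h3⟩

theorem H_zero : H 0 = ∅ := by
  ext ⟨u, v⟩
  simp only [H, X, Set.mem_setOf_eq, Set.mem_empty_iff_false, iff_false]
  rintro ⟨⟨h, -⟩, hv⟩
  simp at h
  exact hv h.2

theorem HS0 (k : ℕ) (Q : ℕ → Prop) : (HS 0 k Q).ncard = 0 := by
  have : HS 0 k Q = ∅ := by
    ext x
    simp only [Set.mem_empty_iff_false, iff_false]
    rintro ⟨h, -⟩
    rw [H_zero] at h
    exact h
  rw [this]; simp

theorem GS00 : (GS 0 0).ncard = 1 := by
  have : GS 0 0 = {[]} := by
    ext w
    simp only [Set.mem_singleton_iff]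
    constructor
    · rintro ⟨-, h⟩; exact cyc_zero.1 h
    · rintro rfl
      exact ⟨⟨by simp, by simp [Av321], by simp [Av3142]⟩, cyc_zero.2 rfl⟩
  rw [this]; simp

theorem GS0 (k : ℕ) : (GS 0 (k + 1)).ncard = 0 := by
  have : GS 0 (k + 1) = ∅ := by
    ext w
    simp only [Set.mem_empty_iff_false, iff_false]
    rintro ⟨h, h2⟩
    have : w = [] := by simpa using h.1
    subst this
    have := cyc_nil.1 h2
    omega
  rw [this]; simp

/-- **totals** -/
theorem totals (n : ℕ) : (∀ k, (XS n k (fun _ => True)).ncard = (2 * n - k).choose k) ∧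
    ∀ k, (HS n k (fun _ => True)).ncard = if n = 0 then 0 else (2 * n - k - 1).choose k := by
  induction n with
  | zero =>
    refine ⟨fun k => ?_, fun k => by simp [HS0]⟩
    rw [XS_split_pos _ _ _ trivial, HS0]
    cases k with
    | zero => rw [GS00]; rfl
    | succ k => rw [GS0]; simp
  | succ n ih =>
    obtain ⟨ih1, ih2⟩ := ih
    have hH : ∀ k, (HS (n + 1) k (fun _ => True)).ncard = (2 * (n + 1) - k - 1).choose k := by
      intro k
      cases k with
      | zero => rw [HS_zero, ih1]; simp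
      | succ k =>
        rw [HS_succ, ih1, ih2]
        by_cases hn : n = 0
        · subst hn
          cases k with
          | zero => simp
          | succ k => simp
        · rw [if_neg hn]
          rcases Nat.lt_or_ge (2 * n) (k + 1) with hk | hk
          · rw [show 2 * n - (k + 1) = 0 by omega, show 2 * n - k - 1 = 0 by omega,
              show 2 * (n + 1) - (k + 1) - 1 = 2 * n - k by omega]
            rw [Nat.choose_eq_zero_of_lt (by omega : 0 < k + 1),
              Nat.choose_eq_zero_of_lt (by omega : 0 < k),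
              Nat.choose_eq_zero_of_lt (by omega : 2 * n - k < k + 1)]
          · rw [show 2 * (n + 1) - (k + 1) - 1 = (2 * n - k - 1) + 1 by omega,
              Nat.choose_succ_succ', show 2 * n - (k + 1) = 2 * n - k - 1 by omega]
            omega
    refine ⟨fun k => ?_, fun k => by rw [hH, if_neg (Nat.succ_ne_zero n)]⟩
    rw [XS_split_pos _ _ _ trivial, hH]
    cases k with
    | zero => rw [GS_zero]; simp
    | succ k =>
      rw [GS_succ, ih1]
      rcases Nat.lt_or_ge (2 * n) k with hk | hk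
      · rw [show 2 * n - k = 0 by omega, show 2 * (n + 1) - (k + 1) - 1 = 0 by omega]
        rw [Nat.choose_eq_zero_of_lt (by omega : 0 < k), Nat.choose_eq_zero_of_lt (by omega : 0 < k + 1),
          Nat.choose_eq_zero_of_lt (by omega)]
      · rw [show 2 * (n + 1) - (k + 1) = (2 * n - k) + 1 by omega, Nat.choose_succ_succ']
        simp

/-- the joint counts -/
def f (n k j : ℕ) : ℕ :=
  if j + k < n then (if k = 0 then 0 else (2 * n - k - 1 - j).choose (k - 1))
  else if j + k = n then n.choose k else 0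

theorem f_lt0 {n j : ℕ} (h : j < n) : f n 0 j = 0 := by
  unfold f; rw [if_pos (by omega), if_pos rfl]

theorem f_lt {n k j : ℕ} (h : j + (k + 1) < n) : f n (k + 1) j = (2 * n - (k + 1) - 1 - j).choose k := by
  unfold f; rw [if_pos h, if_neg (by omega)]; rfl

theorem f_eq {n k j : ℕ} (h : j + k = n) : f n k j = n.choose k := by
  unfold f; rw [if_neg (by omega), if_pos h]

theorem f_gt {n k j : ℕ} (h : n < j + k) : f n k j = 0 := by
  unfold f; rw [if_neg (by omega), if_neg (by omega)]

theorem joint (n : ℕ) : ∀ k j, (XS n k (fun i => i = j)).ncard = f n k j := by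
  induction n with
  | zero =>
    intro k j
    cases j with
    | zero =>
      rw [XS_split_pos _ _ (fun i => i = 0) rfl, HS0]
      cases k with
      | zero => rw [GS00]; simp [f]
      | succ k => rw [GS0]; simp [f]
    | succ j =>
      rw [XS_split_neg _ _ (fun i => i = j + 1) (by omega), HS0]
      rw [f_gt (by omega)]
  | succ n ih =>
    intro k j
    cases j with
    | zero =>
      rw [XS_split_pos _ _ (fun i => i = 0) rfl]
      have h0 : ∀ k, (HS (n + 1) k (fun i => i = 0)).ncard = 0 := by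
        intro k
        have : HS (n + 1) k (fun i => i = 0) = ∅ := by
          ext x
          simp only [Set.mem_empty_iff_false, iff_false]
          rintro ⟨h1, -, h3⟩
          exact h1.2 (List.length_eq_zero_iff.1 h3)
        rw [this]; simp
      rw [h0]
      cases k with
      | zero => rw [GS_zero, f_lt0 (by omega)]; simp
      | succ k =>
        rw [GS_succ, (totals n).1]
        rcases Nat.lt_trichotomy k n with hk | hk | hk
        · rw [f_lt (by omega), show 2 * (n + 1) - (k + 1) - 1 - 0 = 2 * n - k by omega]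
          rfl
        · subst hk
          rw [f_eq (by omega)]
          simp [show 2 * k - k = k by omega]
        · rw [f_gt (by omega), Nat.choose_eq_zero_of_lt (by omega)]
    | succ j =>
      rw [XS_split_neg _ _ (fun i => i = j + 1) (by omega)]
      have hQ : (fun i : ℕ => i + 1 = j + 1) = fun i => i = j := by
        funext i; simp
      cases k with
      | zero =>
        rw [HS_zero, hQ, ih]
        rcases Nat.lt_trichotomy j n with hk | hk | hk
        · rw [f_lt0 hk, f_lt0 (by omega)]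
        · rw [f_eq (by omega), f_eq (by omega)]; simp
        · rw [f_gt (by omega), f_gt (by omega)]
      | succ k =>
        rw [HS_succ, hQ, ih, ← XS_split_neg _ _ (fun i => i = j + 1) (by omega), ih]
        rcases Nat.lt_trichotomy (j + k + 1) n with hk | hk | hk
        · rw [f_lt (by omega), f_lt (by omega)]
          rcases k with _ | k
          · rw [f_lt0 (by omega)]; simp
          · rw [f_lt (by omega), show 2 * (n + 1) - (k + 1 + 1) - 1 - (j + 1) =
              (2 * n - (k + 1) - 1 - (j + 1)) + 1 by omega,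
              Nat.choose_succ_succ', show 2 * n - (k + 1 + 1) - 1 - j = 2 * n - (k + 1) - 1 - (j + 1) by omega]
            omega
        · rw [f_eq (by omega), f_eq (by omega), f_eq (by omega), Nat.choose_succ_succ']
          omega
        · rw [f_gt (by omega), f_gt (by omega), f_gt (by omega)]

end Pool.Agent.KS6_13.AR
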